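import Pool.Agent.Helper75.LQ.Sts

/-! Package E1 of the LQ project: propagation of smallness in a strip. -/

set_option autoImplicit false

open Complex MeasureTheory Filter Topology

namespace Pool.Agent.Helper41.LQ

/-- the map of the strip onto the half plane -/
noncomputable def ps (q : ℝ) (z : ℂ) : ℂ := cexp ((q : ℂ) * z)

lemma ps_re (q : ℝ) (z : ℂ) : (ps q z).re = Real.exp (q * z.re) * Real.cos (q * z.im) := by
  simp [ps, Complex.exp_re, Complex.mul_re, Complex.mul_im]

lemma ps_norm (q : ℝ) (z : ℂ) : ‖ps q z‖ = Real.exp (q * z.re) := by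
  simp [ps, Complex.norm_exp, Complex.mul_re]

/-- numerator and denominator of the inverse Blaschke factor -/
noncomputable def Nu (q : ℝ) (p z : ℂ) : ℂ := ps q z + (starRingEnd ℂ) (ps q p)
noncomputable def De (q : ℝ) (p z : ℂ) : ℂ := ps q z - ps q p

lemma sq_diff (q : ℝ) (p z : ℂ) :
    ‖Nu q p z‖ ^ 2 - ‖De q p z‖ ^ 2 = 4 * (ps q z).re * (ps q p).re := by
  rw [← Complex.normSq_eq_norm_sq, ← Complex.normSq_eq_norm_sq, Nu, De]
  simp only [Complex.normSq_apply, Complex.add_re, Complex.add_im, Complex.sub_re, Complex.sub_im,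
    Complex.conj_re, Complex.conj_im]
  ring

lemma nu_le (q : ℝ) (p z : ℂ) : ‖Nu q p z‖ ≤ ‖ps q z‖ + ‖ps q p‖ := by
  refine le_trans (norm_add_le _ _) ?_
  rw [RCLike.norm_conj]

/-- on the sphere -/
lemma ratio_sphere {q b : ℝ} (hq : 0 < q) (hb : 0 < b) (hqb : q * b ≤ 1 / 2) {p z : ℂ}
    (hz : ‖z - p‖ = b) : ‖Nu q p z‖ ≤ 6 / (q * b) * ‖De q p z‖ := by
  set w : ℂ := (q : ℂ) * (z - p) with hw
  have hwn : ‖w‖ = q * b := by
    rw [hw, norm_mul, hz, Complex.norm_real, Real.norm_of_nonneg hq.le]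
  have hzw : ps q z = ps q p * cexp w := by
    rw [ps, ps, ← Complex.exp_add, hw]; congr 1; ring
  have hDe : De q p z = ps q p * (cexp w - 1) := by rw [De, hzw]; ring
  have h1 : ‖cexp w - 1 - w‖ ≤ ‖w‖ ^ 2 := by
    apply Complex.norm_exp_sub_one_sub_id_le
    rw [hwn]; linarith
  have h2 : ‖w‖ - ‖w‖ ^ 2 ≤ ‖cexp w - 1‖ := by
    have : ‖w‖ ≤ ‖cexp w - 1‖ + ‖cexp w - 1 - w‖ := by
      calc ‖w‖ = ‖(cexp w - 1) - (cexp w - 1 - w)‖ := by congr 1; ring
        _ ≤ _ := norm_sub_le _ _
    linarith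
  have h3 : q * b / 2 ≤ ‖cexp w - 1‖ := by
    rw [hwn] at h2
    have : 0 < q * b := by positivity
    nlinarith
  have h4 : ‖cexp w‖ ≤ 2 := by
    rw [Complex.norm_exp]
    have h5 : w.re ≤ 1 / 2 := le_trans (Complex.re_le_norm w) (by rw [hwn]; exact hqb)
    have h6 : Real.exp (1 / 2) ≤ 2 := by
      have h7 : Real.exp (1 / 2) ^ 2 ≤ 2 ^ 2 := by
        rw [← Real.exp_nat_mul]
        have := Real.exp_one_lt_d9
        norm_num
        linarith
      exact le_of_sq_le_sq h7 (by norm_num)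
    exact le_trans (Real.exp_le_exp.2 h5) h6
  have hP : 0 < ‖ps q p‖ := by rw [ps_norm]; exact Real.exp_pos _
  have h8 : ‖Nu q p z‖ ≤ 3 * ‖ps q p‖ := by
    refine le_trans (nu_le q p z) ?_
    rw [hzw, norm_mul]
    nlinarith
  have h9 : ‖ps q p‖ * (q * b / 2) ≤ ‖De q p z‖ := by
    rw [hDe, norm_mul]
    exact mul_le_mul_of_nonneg_left h3 hP.le
  have hqb0 : 0 < q * b := by positivity
  calc ‖Nu q p z‖ ≤ 3 * ‖ps q p‖ := h8
    _ = 6 / (q * b) * (‖ps q p‖ * (q * b / 2)) := by field_simp; ring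
    _ ≤ _ := mul_le_mul_of_nonneg_left h9 (by positivity)

/-- on the horizontal sides -/
lemma ratio_top {q H : ℝ} (hH : 0 < H) (hq : q = Real.pi / (2 * H)) {p z : ℂ}
    (hz : z.im = H ∨ z.im = -H) : ‖Nu q p z‖ = ‖De q p z‖ := by
  have h1 : (ps q z).re = 0 := by
    rw [ps_re]
    have : Real.cos (q * z.im) = 0 := by
      have h2 : q * H = Real.pi / 2 := by rw [hq]; field_simp
      rcases hz with h | h
      · rw [h, h2, Real.cos_pi_div_two]
      · rw [h, mul_neg, Real.cos_neg, h2, Real.cos_pi_div_two]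
    rw [this, mul_zero]
  have h2 := sq_diff q p z
  rw [h1] at h2
  have h3 : ‖Nu q p z‖ ^ 2 = ‖De q p z‖ ^ 2 := by linarith
  exact (sq_eq_sq₀ (norm_nonneg _) (norm_nonneg _)).1 h3

/-- on the vertical sides -/
lemma ratio_side {q R R2 : ℝ} (hq : 0 < q) (hR : R + 2 / q ≤ R2) {p z : ℂ} (hp : |p.re| ≤ R)
    (hz : z.re = R2 ∨ z.re = -R2) : ‖Nu q p z‖ ≤ 2 * ‖De q p z‖ := by
  have h3 : (3 : ℝ) ≤ Real.exp 2 := by
    have := Real.add_one_le_exp (2 : ℝ); linarith
  have hqR : q * R + 2 ≤ q * R2 := by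
    have h := mul_le_mul_of_nonneg_left hR hq.le
    have h' : q * (R + 2 / q) = q * R + 2 := by field_simp
    linarith
  have hp' := abs_le.1 hp
  have h1 : q * p.re ≤ q * R := mul_le_mul_of_nonneg_left hp'.2 hq.le
  have h2 : -(q * R) ≤ q * p.re := by
    have := mul_le_mul_of_nonneg_left hp'.1 hq.le
    linarith
  have hN := nu_le q p z
  rcases hz with h | h
  · have h4 : 3 * ‖ps q p‖ ≤ ‖ps q z‖ := by
      rw [ps_norm, ps_norm, h]
      calc 3 * Real.exp (q * p.re) ≤ Real.exp 2 * Real.exp (q * p.re) :=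
            mul_le_mul_of_nonneg_right h3 (Real.exp_pos _).le
        _ = Real.exp (2 + q * p.re) := (Real.exp_add _ _).symm
        _ ≤ _ := Real.exp_le_exp.2 (by linarith)
    have h5 : ‖ps q z‖ - ‖ps q p‖ ≤ ‖De q p z‖ := norm_sub_norm_le _ _
    have := norm_nonneg (ps q p)
    linarith
  · have h4 : 3 * ‖ps q z‖ ≤ ‖ps q p‖ := by
      rw [ps_norm, ps_norm, h]
      calc 3 * Real.exp (q * -R2) ≤ Real.exp 2 * Real.exp (q * -R2) :=
            mul_le_mul_of_nonneg_right h3 (Real.exp_pos _).le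
        _ = Real.exp (2 + q * -R2) := (Real.exp_add _ _).symm
        _ ≤ _ := Real.exp_le_exp.2 (by linarith)
    have h5 : ‖ps q p‖ - ‖ps q z‖ ≤ ‖De q p z‖ := by
      rw [De, norm_sub_rev]; exact norm_sub_norm_le _ _
    have := norm_nonneg (ps q z)
    linarith

/-- the denominator is zero only at `p` -/
lemma de_ne {q H : ℝ} (hH : 0 < H) (hq : q = Real.pi / (2 * H)) {p z : ℂ} (hp : |p.im| < H)
    (hz : |z.im| ≤ H) (hne : z ≠ p) : De q p z ≠ 0 := by
  intro h0
  rw [De, sub_eq_zero, ps, ps, Complex.exp_eq_exp_iff_exists_int] at h0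
  obtain ⟨n, hn⟩ := h0
  have hq0 : 0 < q := by rw [hq]; positivity
  have him := congrArg Complex.im hn
  have hre := congrArg Complex.re hn
  simp only [Complex.mul_im, Complex.mul_re, Complex.add_im, Complex.add_re, Complex.ofReal_re,
    Complex.ofReal_im, Complex.I_re, Complex.I_im, Complex.intCast_re, Complex.intCast_im] at him hre
  norm_num at him hre
  have hzi := abs_le.1 hz
  have hpi := abs_lt.1 hp
  have h4 : q * (z.im - p.im) = n * (2 * Real.pi) := by linarith
  have hpiq : Real.pi = 2 * H * q := by rw [hq]; field_simp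
  have h5 : z.im - p.im = n * (4 * H) := by
    have : q * (z.im - p.im) = q * (n * (4 * H)) := by rw [h4, hpiq]; ring
    exact mul_left_cancel₀ hq0.ne' this
  have hn0 : n = 0 := by
    by_contra hn0
    rcases lt_or_gt_of_ne hn0 with h | h
    · have h' : n ≤ -1 := by omega
      have : (n : ℝ) ≤ -1 := by exact_mod_cast h'
      nlinarith
    · have h' : 1 ≤ n := by omega
      have : (1 : ℝ) ≤ n := by exact_mod_cast h'
      nlinarith
  apply hne
  apply Complex.ext
  · rcases hre with h | h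
    · exact h
    · exact absurd h hq0.ne'
  · rw [hn0] at h5
    simp at h5
    linarith

/-- near the origin -/
lemma ratio_in {q H R β : ℝ} (hH : 0 < H) (hβ : 0 < β) (hβH : β < H) (hq : q = Real.pi / (2 * H)) :
    ∃ δ : ℝ, 0 < δ ∧ ∀ p z : ℂ, |p.re| ≤ R → |p.im| ≤ H - β → ‖z‖ ≤ H / 2 →
      0 < ‖Nu q p z‖ ∧ ‖De q p z‖ ^ 2 ≤ Real.exp (-δ) * ‖Nu q p z‖ ^ 2 := by
  have hq0 : 0 < q := by rw [hq]; positivity
  have hqH : q * H = Real.pi / 2 := by rw [hq]; field_simp
  set c1 : ℝ := Real.exp (-(q * (H / 2))) * Real.cos (q * (H / 2)) with hc1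
  set c2 : ℝ := Real.exp (-(q * R)) * Real.cos (q * (H - β)) with hc2
  set c3 : ℝ := (Real.exp (q * (H / 2)) + Real.exp (q * R)) ^ 2 with hc3
  have hpi := Real.pi_pos
  have hqβ : q * (H - β) < Real.pi / 2 := by
    have : 0 < q * β := by positivity
    nlinarith
  have hqβ0 : 0 ≤ q * (H - β) := mul_nonneg hq0.le (by linarith)
  have hqH2 : q * (H / 2) = Real.pi / 4 := by linarith
  have hc1p : 0 < c1 := by
    apply mul_pos (Real.exp_pos _)
    apply Real.cos_pos_of_mem_Ioo
    constructor <;> linarith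
  have hc2p : 0 < c2 := by
    apply mul_pos (Real.exp_pos _)
    apply Real.cos_pos_of_mem_Ioo
    constructor <;> linarith
  have hc3p : 0 < c3 := by positivity
  refine ⟨4 * c1 * c2 / c3, by positivity, ?_⟩
  intro p z hpr hpi' hz
  have hzre := Complex.abs_re_le_norm z
  have hzim := Complex.abs_im_le_norm z
  have hzre' := abs_le.1 (hzre.trans hz)
  have hpr' := abs_le.1 hpr
  -- real parts
  have hA : c1 ≤ (ps q z).re := by
    rw [ps_re, hc1]
    have h1 : Real.exp (-(q * (H / 2))) ≤ Real.exp (q * z.re) := by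
      apply Real.exp_le_exp.2
      have := mul_le_mul_of_nonneg_left hzre'.1 hq0.le
      linarith
    have h2 : Real.cos (q * (H / 2)) ≤ Real.cos (q * z.im) := by
      rw [← Real.cos_abs (q * z.im), abs_mul, abs_of_pos hq0]
      apply Real.cos_le_cos_of_nonneg_of_le_pi
      · positivity
      · linarith
      · exact mul_le_mul_of_nonneg_left (hzim.trans hz) hq0.le
    have h3 : 0 < Real.cos (q * (H / 2)) := by
      apply Real.cos_pos_of_mem_Ioo
      constructor <;> linarith
    exact mul_le_mul h1 h2 h3.le (Real.exp_pos _).le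
  have hB : c2 ≤ (ps q p).re := by
    rw [ps_re, hc2]
    have h1 : Real.exp (-(q * R)) ≤ Real.exp (q * p.re) := by
      apply Real.exp_le_exp.2
      have := mul_le_mul_of_nonneg_left hpr'.1 hq0.le
      linarith
    have h2 : Real.cos (q * (H - β)) ≤ Real.cos (q * p.im) := by
      rw [← Real.cos_abs (q * p.im), abs_mul, abs_of_pos hq0]
      apply Real.cos_le_cos_of_nonneg_of_le_pi
      · positivity
      · linarith
      · exact mul_le_mul_of_nonneg_left hpi' hq0.le
    have h3 : 0 < Real.cos (q * (H - β)) := by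
      apply Real.cos_pos_of_mem_Ioo
      constructor <;> linarith
    exact mul_le_mul h1 h2 h3.le (Real.exp_pos _).le
  have hNle : ‖Nu q p z‖ ^ 2 ≤ c3 := by
    apply pow_le_pow_left₀ (norm_nonneg _)
    refine le_trans (nu_le q p z) ?_
    rw [ps_norm, ps_norm]
    apply add_le_add
    · exact Real.exp_le_exp.2 (mul_le_mul_of_nonneg_left hzre'.2 hq0.le)
    · exact Real.exp_le_exp.2 (mul_le_mul_of_nonneg_left hpr'.2 hq0.le)
  have hNpos : 0 < ‖Nu q p z‖ := by
    rw [norm_pos_iff]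
    intro h0
    have := congrArg Complex.re h0
    rw [Nu, Complex.add_re, Complex.conj_re, Complex.zero_re] at this
    linarith
  refine ⟨hNpos, ?_⟩
  have h4 := sq_diff q p z
  have h5 : 4 * c1 * c2 ≤ 4 * (ps q z).re * (ps q p).re := by
    have := mul_le_mul hA hB hc2p.le (hc1p.le.trans hA)
    nlinarith
  have h6 : 4 * c1 * c2 / c3 * ‖Nu q p z‖ ^ 2 ≤ 4 * c1 * c2 := by
    rw [div_mul_eq_mul_div, div_le_iff₀ hc3p]
    exact mul_le_mul_of_nonneg_left hNle (by positivity)
  have h7 : 1 - 4 * c1 * c2 / c3 ≤ Real.exp (-(4 * c1 * c2 / c3)) := by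
    have := Real.add_one_le_exp (-(4 * c1 * c2 / c3)); linarith
  have h8 : ‖De q p z‖ ^ 2 ≤ (1 - 4 * c1 * c2 / c3) * ‖Nu q p z‖ ^ 2 := by nlinarith
  exact le_trans h8 (mul_le_mul_of_nonneg_right h7 (by positivity))

end Pool.Agent.Helper41.LQ

namespace Pool.Agent.Helper75.LQ

open Pool.Agent.Helper41.LQ

theorem st_e1 : St_E1 := by
  intro H R β b η hH hR hβ hβH hb hη
  set q : ℝ := Real.pi / (2 * H) with hq
  have hq0 : 0 < q := by positivity
  have hpi := Real.pi_pos
  obtain ⟨δ, hδ, hin⟩ := ratio_in (q := q) (H := H) (R := R) (β := β) hH hβ hβH hq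
  set b' : ℝ := min b (H / Real.pi) with hb'
  have hb'0 : 0 < b' := lt_min hb (by positivity)
  have hb'b : b' ≤ b := min_le_left _ _
  have hqb : q * b' ≤ 1 / 2 := by
    calc q * b' ≤ q * (H / Real.pi) := mul_le_mul_of_nonneg_left (min_le_right _ _) hq0.le
      _ = 1 / 2 := by rw [hq]; field_simp
  set K : ℝ := 6 / (q * b') with hK
  have hqb0 : 0 < q * b' := by positivity
  have hK1 : 1 ≤ K := by
    rw [hK, le_div_iff₀ hqb0]; linarith
  have hlogK : 0 ≤ Real.log K := Real.log_nonneg hK1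
  set κ : ℝ := η / (Real.log K + 1) with hκ
  have hκ0 : 0 < κ := by positivity
  have hκK : κ * Real.log K ≤ η := by
    have h : κ * (Real.log K + 1) = η := by rw [hκ]; field_simp
    rw [mul_add, mul_one] at h
    linarith only [h, hκ0]
  set ε : ℝ := κ * δ / (32 * (H ^ 2 + 1)) with hε
  have hε0 : 0 < ε := by positivity
  have hεH : ε * (H ^ 2 + 1) = κ * δ / 32 := by rw [hε]; field_simp
  set η' : ℝ := min (η / 2) (min (H / 2) (min 1 (κ * δ / 64))) with hη'
  have hη'0 : 0 < η' := lt_min (by positivity) (lt_min (by positivity) (lt_min one_pos (by positivity)))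
  have hη'1 : η' ≤ η / 2 := min_le_left _ _
  have hη'2 : η' ≤ H / 2 := (min_le_right _ _).trans (min_le_left _ _)
  have hη'3 : η' ≤ 1 := (min_le_right _ _).trans ((min_le_right _ _).trans (min_le_left _ _))
  have hη'4 : η' ≤ κ * δ / 64 := (min_le_right _ _).trans ((min_le_right _ _).trans (min_le_right _ _))
  set R2 : ℝ := R + 2 / q + κ / ε + 1 with hR2
  have hq2 : 0 < 2 / q := by positivity
  have hκε : 0 < κ / ε := by positivity
  have hR2a : R + 2 / q ≤ R2 := by linarith
  have hR2b : 1 ≤ R2 := by linarith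
  have hR2c : κ ≤ ε * R2 ^ 2 := by
    have h1 : κ / ε ≤ R2 := by linarith
    have h2 : κ ≤ ε * R2 := by
      have := mul_le_mul_of_nonneg_left h1 hε0.le
      have h3 : ε * (κ / ε) = κ := by field_simp
      linarith
    have h3 : ε * R2 ≤ ε * R2 ^ 2 := by
      apply mul_le_mul_of_nonneg_left _ hε0.le
      exact le_self_pow₀ hR2b (by norm_num)
    linarith only [h2, h3]
  refine ⟨η', hη'0, R2, 4 / κ, ?_⟩
  intro f L hL hf hfb p hpre hpim hsm z0 hz0
  have hκL : 4 ≤ κ * L := by
    have h := mul_le_mul_of_nonneg_left hL hκ0.le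
    have h' : κ * (4 / κ) = 4 := by field_simp
    linarith
  have hL0 : 0 < L := by
    by_contra h
    push Not at h
    have := mul_nonpos_of_nonneg_of_nonpos hκ0.le h
    linarith only [this, hκL]
  -- inside the disc
  by_cases hz0p : ‖z0 - p‖ ≤ b'
  · refine lt_of_le_of_lt (hsm z0 (hz0p.trans hb'b)) (Real.exp_lt_exp.2 ?_)
    have : L * η' < L * η := mul_lt_mul_of_pos_left (by linarith) hL0
    linarith
  push Not at hz0p
  set k : ℕ := ⌊κ * L⌋₊ with hk
  have hk1 : (k : ℝ) ≤ κ * L := Nat.floor_le (by positivity)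
  have hk2 : κ * L - 1 < k := Nat.sub_one_lt_floor _
  set A : Set ℂ := Set.Ioo (-R2) R2 ×ℂ Set.Ioo (-H) H with hA
  set U : Set ℂ := A ∩ (Metric.closedBall p b')ᶜ with hU
  have hclA : closure A = Set.Icc (-R2) R2 ×ℂ Set.Icc (-H) H := by
    rw [hA, Complex.closure_reProdIm, closure_Ioo (by linarith), closure_Ioo (by linarith)]
  have hclU : ∀ z ∈ closure U, |z.re| ≤ R2 ∧ |z.im| ≤ H ∧ b' ≤ ‖z - p‖ := by
    intro z hz
    have h1 : z ∈ closure A := closure_mono Set.inter_subset_left hz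
    rw [hclA, Complex.mem_reProdIm] at h1
    refine ⟨abs_le.2 ⟨h1.1.1, h1.1.2⟩, abs_le.2 ⟨h1.2.1, h1.2.2⟩, ?_⟩
    have h2 : closure U ⊆ {z : ℂ | b' ≤ ‖z - p‖} := by
      apply closure_minimal
      · intro w hw
        have h3 : w ∉ Metric.closedBall p b' := hw.2
        rw [Metric.mem_closedBall, not_le, dist_eq_norm] at h3
        exact h3.le
      · exact isClosed_le continuous_const (by fun_prop)
    exact h2 hz
  have hfrU : ∀ z ∈ frontier U, (z.im = H ∨ z.im = -H) ∨ (z.re = R2 ∨ z.re = -R2) ∨ ‖z - p‖ = b' := by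
    intro z hz
    rcases frontier_inter_subset _ _ hz with h | h
    · have h1 := h.1
      rw [hA, Complex.frontier_reProdIm, closure_Ioo (by linarith), closure_Ioo (by linarith),
        frontier_Ioo (by linarith), frontier_Ioo (by linarith)] at h1
      rcases h1 with h1 | h1
      · rw [Complex.mem_reProdIm] at h1
        left
        rcases h1.2 with h2 | h2
        · exact Or.inr h2
        · exact Or.inl h2
      · rw [Complex.mem_reProdIm] at h1
        right; left
        rcases h1.1 with h2 | h2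
        · exact Or.inr h2
        · exact Or.inl h2
    · have h1 := h.2
      rw [frontier_compl, frontier_closedBall _ hb'0.ne'] at h1
      right; right
      rw [← dist_eq_norm]
      exact h1
  have hDne : ∀ z ∈ closure U, De q p z ≠ 0 := by
    intro z hz
    obtain ⟨-, h2, h3⟩ := hclU z hz
    apply de_ne hH hq (lt_of_le_of_lt hpim (by linarith)) h2
    intro h
    rw [h, sub_self, norm_zero] at h3
    linarith
  set h : ℂ → ℂ := fun z => f z * (Nu q p z / De q p z) ^ k * cexp (-(ε * L : ℝ) * z ^ 2) with hh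
  have hgauss : ∀ z : ℂ, ‖cexp (-(ε * L : ℝ) * z ^ 2)‖ = Real.exp (-(ε * L) * (z.re ^ 2 - z.im ^ 2)) := by
    intro z
    rw [Complex.norm_exp]
    congr 1
    simp only [pow_two, Complex.mul_re, Complex.mul_im, Complex.neg_re, Complex.neg_im,
      Complex.ofReal_re, Complex.ofReal_im]
    ring
  have hhn : ∀ z : ℂ, ‖h z‖ = ‖f z‖ * (‖Nu q p z‖ / ‖De q p z‖) ^ k *
      Real.exp (-(ε * L) * (z.re ^ 2 - z.im ^ 2)) := by
    intro z
    rw [hh]
    simp only
    rw [norm_mul, norm_mul, hgauss, norm_pow, norm_div]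
  have hdiff : DiffContOnCl ℂ h U := by
    apply DifferentiableOn.diffContOnCl
    intro z hz
    apply DifferentiableAt.differentiableWithinAt
    have hN : DifferentiableAt ℂ (Nu q p) z := by
      unfold Nu ps
      fun_prop
    have hD : DifferentiableAt ℂ (De q p) z := by
      unfold De ps
      fun_prop
    have hE : DifferentiableAt ℂ (fun z : ℂ => cexp (-(ε * L : ℝ) * z ^ 2)) z := by fun_prop
    exact ((hf z).mul ((hN.div hD (hDne z hz)).pow k)).mul hE
  have hbdd : Bornology.IsBounded U :=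
    (((Metric.isBounded_Ioo _ _).reProdIm (Metric.isBounded_Ioo _ _)).subset Set.inter_subset_left)
  have hEb : ∀ z : ℂ, |z.im| ≤ H → Real.exp (-(ε * L) * (z.re ^ 2 - z.im ^ 2)) ≤
      Real.exp (ε * L * H ^ 2) := by
    intro z hz
    apply Real.exp_le_exp.2
    have h1 : z.im ^ 2 ≤ H ^ 2 := by
      rw [← sq_abs z.im]; exact pow_le_pow_left₀ (abs_nonneg _) hz 2
    have h2 : 0 ≤ ε * L := by positivity
    have h3 := mul_le_mul_of_nonneg_left h1 h2
    have h4 := mul_nonneg h2 (sq_nonneg z.re)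
    have h5 : -(ε * L) * (z.re ^ 2 - z.im ^ 2) = ε * L * z.im ^ 2 - ε * L * z.re ^ 2 := by ring
    rw [h5]
    linarith only [h3, h4]
  set Cc : ℝ := Real.exp (L * η') * Real.exp (ε * L * H ^ 2) with hCc
  have hfr : ∀ z ∈ frontier U, ‖h z‖ ≤ Cc := by
    intro z hz
    have hzc : z ∈ closure U := frontier_subset_closure hz
    obtain ⟨h1, h2, h3⟩ := hclU z hzc
    have hDpos : 0 < ‖De q p z‖ := norm_pos_iff.2 (hDne z hzc)
    have hfz := hfb z h1 h2
    have hE := hEb z h2
    rw [hhn]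
    rcases hfrU z hz with h4 | h4 | h4
    · have h5 : ‖Nu q p z‖ / ‖De q p z‖ = 1 := by
        rw [ratio_top hH hq h4, div_self hDpos.ne']
      rw [h5, one_pow, mul_one]
      exact mul_le_mul hfz hE (Real.exp_pos _).le (Real.exp_pos _).le
    · have h5 : ‖Nu q p z‖ / ‖De q p z‖ ≤ 2 := by
        rw [div_le_iff₀ hDpos]; exact ratio_side hq0 hR2a hpre h4
      have h6 : (‖Nu q p z‖ / ‖De q p z‖) ^ k ≤ Real.exp (κ * L) := by
        calc (‖Nu q p z‖ / ‖De q p z‖) ^ k ≤ 2 ^ k := pow_le_pow_left₀ (by positivity) h5 k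
          _ ≤ (Real.exp 1) ^ k := pow_le_pow_left₀ (by norm_num)
              (by have := Real.add_one_le_exp (1 : ℝ); linarith) k
          _ = Real.exp k := by rw [← Real.exp_nat_mul, mul_one]
          _ ≤ _ := Real.exp_le_exp.2 hk1
      have h7 : z.re ^ 2 = R2 ^ 2 := by
        rcases h4 with h4 | h4
        · rw [h4]
        · rw [h4]; ring
      have h8 : z.im ^ 2 ≤ H ^ 2 := by
        rw [← sq_abs z.im]; exact pow_le_pow_left₀ (abs_nonneg _) h2 2
      calc ‖f z‖ * (‖Nu q p z‖ / ‖De q p z‖) ^ k * Real.exp (-(ε * L) * (z.re ^ 2 - z.im ^ 2))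
          ≤ Real.exp (L * η') * Real.exp (κ * L) * Real.exp (-(ε * L) * (z.re ^ 2 - z.im ^ 2)) :=
            mul_le_mul_of_nonneg_right (mul_le_mul hfz h6 (by positivity) (Real.exp_pos _).le)
              (Real.exp_pos _).le
        _ = Real.exp (L * η' + κ * L + -(ε * L) * (z.re ^ 2 - z.im ^ 2)) := by
            rw [← Real.exp_add, ← Real.exp_add]
        _ ≤ Real.exp (L * η' + ε * L * H ^ 2) := by
            apply Real.exp_le_exp.2
            rw [h7]
            have h9 : κ * L ≤ ε * R2 ^ 2 * L := mul_le_mul_of_nonneg_right hR2c hL0.le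
            have h10 : 0 ≤ ε * L := by positivity
            have h11 := mul_le_mul_of_nonneg_left h8 h10
            have h12 : -(ε * L) * (R2 ^ 2 - z.im ^ 2) = ε * L * z.im ^ 2 - ε * R2 ^ 2 * L := by ring
            rw [h12]
            linarith only [h9, h11]
        _ = Cc := by rw [hCc, Real.exp_add]
    · have h5 : ‖Nu q p z‖ / ‖De q p z‖ ≤ K := by
        rw [div_le_iff₀ hDpos]; exact ratio_sphere hq0 hb'0 hqb h4
      have hfz' := hsm z (h4.le.trans hb'b)
      have h6 : (‖Nu q p z‖ / ‖De q p z‖) ^ k ≤ Real.exp (L * η) := by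
        have hK0 : 0 < K := by linarith
        calc (‖Nu q p z‖ / ‖De q p z‖) ^ k ≤ K ^ k := pow_le_pow_left₀ (by positivity) h5 k
          _ = Real.exp (k * Real.log K) := by
              rw [Real.exp_nat_mul, Real.exp_log hK0]
          _ ≤ _ := by
              apply Real.exp_le_exp.2
              calc (k : ℝ) * Real.log K ≤ κ * L * Real.log K :=
                    mul_le_mul_of_nonneg_right hk1 hlogK
                _ = L * (κ * Real.log K) := by ring
                _ ≤ L * η := mul_le_mul_of_nonneg_left hκK hL0.le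
      calc ‖f z‖ * (‖Nu q p z‖ / ‖De q p z‖) ^ k * Real.exp (-(ε * L) * (z.re ^ 2 - z.im ^ 2))
          ≤ Real.exp (-(L * η)) * Real.exp (L * η) * Real.exp (ε * L * H ^ 2) :=
            mul_le_mul (mul_le_mul hfz' h6 (by positivity) (Real.exp_pos _).le) hE
              (Real.exp_pos _).le (by positivity)
        _ = 1 * Real.exp (ε * L * H ^ 2) := by
            rw [← Real.exp_add, neg_add_cancel, Real.exp_zero]
        _ ≤ Cc := by
            rw [hCc]
            apply mul_le_mul_of_nonneg_right _ (Real.exp_pos _).le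
            exact Real.one_le_exp (by positivity)
  -- the point
  have hz0re := (Complex.abs_re_le_norm z0).trans hz0
  have hz0im := (Complex.abs_im_le_norm z0).trans hz0
  have hz0U : z0 ∈ U := by
    constructor
    · rw [hA, Complex.mem_reProdIm]
      have h1 := abs_le.1 hz0re
      have h2 := abs_le.1 hz0im
      constructor
      · constructor <;> linarith
      · constructor <;> linarith
    · intro h
      rw [Metric.mem_closedBall, dist_eq_norm] at h
      linarith
  have hmax := Complex.norm_le_of_forall_mem_frontier_norm_le hbdd hdiff hfr (subset_closure hz0U)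
  obtain ⟨hN0, hND⟩ := hin p z0 hpre hpim (hz0.trans hη'2)
  have hD0 : 0 < ‖De q p z0‖ := norm_pos_iff.2 (hDne z0 (subset_closure hz0U))
  -- the inverse ratio
  have hr : ‖De q p z0‖ ≤ Real.exp (-δ / 2) * ‖Nu q p z0‖ := by
    have h1 : ‖De q p z0‖ ^ 2 ≤ (Real.exp (-δ / 2) * ‖Nu q p z0‖) ^ 2 := by
      rw [mul_pow, ← Real.exp_nat_mul]
      have : ((2 : ℕ) : ℝ) * (-δ / 2) = -δ := by push_cast; ring
      rw [this]
      exact hND
    exact le_of_sq_le_sq h1 (by positivity)
  have hr2 : Real.exp (k * (δ / 2)) ≤ (‖Nu q p z0‖ / ‖De q p z0‖) ^ k := by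
    rw [Real.exp_nat_mul]
    apply pow_le_pow_left₀ (Real.exp_pos _).le
    rw [le_div_iff₀ hD0]
    calc Real.exp (δ / 2) * ‖De q p z0‖ ≤ Real.exp (δ / 2) * (Real.exp (-δ / 2) * ‖Nu q p z0‖) :=
          mul_le_mul_of_nonneg_left hr (Real.exp_pos _).le
      _ = ‖Nu q p z0‖ := by
          rw [← mul_assoc, ← Real.exp_add]
          have : δ / 2 + -δ / 2 = 0 := by ring
          rw [this, Real.exp_zero, one_mul]
  have hg : Real.exp (-(ε * L)) ≤ Real.exp (-(ε * L) * (z0.re ^ 2 - z0.im ^ 2)) := by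
    apply Real.exp_le_exp.2
    have h1 : z0.re ^ 2 ≤ 1 := by
      rw [← sq_abs]
      exact pow_le_one₀ (abs_nonneg _) (hz0re.trans hη'3)
    have h2 : 0 ≤ ε * L := by positivity
    have h3 := mul_le_mul_of_nonneg_left h1 h2
    have h4 := mul_nonneg h2 (sq_nonneg z0.im)
    have h5 : -(ε * L) * (z0.re ^ 2 - z0.im ^ 2) = ε * L * z0.im ^ 2 - ε * L * z0.re ^ 2 := by ring
    rw [h5]
    linarith only [h3, h4]
  rw [hhn] at hmax
  have h1 : ‖f z0‖ * Real.exp (k * (δ / 2)) * Real.exp (-(ε * L)) ≤ Cc := by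
    refine le_trans ?_ hmax
    apply mul_le_mul (mul_le_mul_of_nonneg_left hr2 (norm_nonneg _)) hg (Real.exp_pos _).le
    positivity
  have h2 : ‖f z0‖ ≤ Real.exp (L * η' + ε * L * H ^ 2 - k * (δ / 2) + ε * L) := by
    have h3 : ‖f z0‖ * Real.exp (k * (δ / 2) - ε * L) ≤ Real.exp (L * η' + ε * L * H ^ 2) := by
      rw [sub_eq_add_neg, Real.exp_add, ← mul_assoc, Real.exp_add]
      exact h1
    have h4 : ‖f z0‖ = ‖f z0‖ * Real.exp (k * (δ / 2) - ε * L) * Real.exp (-(k * (δ / 2) - ε * L)) := by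
      rw [mul_assoc, ← Real.exp_add, add_neg_cancel, Real.exp_zero, mul_one]
    rw [h4]
    refine le_trans (mul_le_mul_of_nonneg_right h3 (Real.exp_pos _).le) ?_
    rw [← Real.exp_add]
    apply Real.exp_le_exp.2
    linarith
  refine lt_of_le_of_lt h2 (Real.exp_lt_exp.2 ?_)
  have h3 : ε * L * H ^ 2 + ε * L = L * (κ * δ / 32) := by
    rw [← hεH]; ring
  have h4 : L * η' ≤ L * (κ * δ / 64) := mul_le_mul_of_nonneg_left hη'4 hL0.le
  have h5 : (κ * L - 1) * (δ / 2) < k * (δ / 2) := mul_lt_mul_of_pos_right hk2 (by positivity)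
  have h6 : 4 * δ ≤ κ * L * δ := mul_le_mul_of_nonneg_right hκL hδ.le
  have e3 : L * (κ * δ / 32) = κ * L * δ / 32 := by ring
  have e4 : L * (κ * δ / 64) = κ * L * δ / 64 := by ring
  have e5 : (κ * L - 1) * (δ / 2) = κ * L * δ / 2 - δ / 2 := by ring
  linarith

end Pool.Agent.Helper75.LQ
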