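import Pool.Agent.Helper75.LQ.Sts

/-! Package G1 of the LQ project: a three lines theorem in a long rectangle. -/

set_option autoImplicit false

open Complex MeasureTheory Filter Topology

namespace Pool.Agent.Helper75.LQ

theorem st_g1 : St_G1 := by
  intro y0 y1 y2 u0 u2 B η h01 h12 hη
  set m : ℝ := max (y0 ^ 2) (y2 ^ 2) with hm
  have hm0 : 0 ≤ m := le_trans (sq_nonneg y0) (le_max_left _ _)
  set ε : ℝ := η / (m + 1) with hε
  have hεp : 0 < ε := by positivity
  have hεm : ε * m ≤ η := by
    have : ε * (m + 1) = η := by rw [hε]; field_simp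
    nlinarith
  set lam : ℝ := (u2 - u0) / (y2 - y0) with hlam
  have h20 : 0 < y2 - y0 := by linarith
  have hlam' : lam * (y2 - y0) = u2 - u0 := by rw [hlam]; field_simp
  set T : ℝ := |u0| + |u2| + |B| with hT
  have hT0 : 0 ≤ T := by positivity
  set R : ℝ := T / ε + 1 with hR
  have hRp : 0 < R := by positivity
  have hRT : T ≤ ε * R ^ 2 := by
    have h1 : ε * R = T + ε := by rw [hR]; field_simp
    have h2 : 1 ≤ R := by rw [hR]; have : 0 ≤ T / ε := by positivity
                          linarith
    have h3 : ε * R ^ 2 = (ε * R) * R := by ring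
    rw [h3, h1]
    nlinarith
  refine ⟨R, hRp, ?_⟩
  intro f L hL hf hB hlow hup
  -- the interpolating value and bounds for it
  have hconv : ∀ y : ℝ, y0 ≤ y → y ≤ y2 → u0 + lam * (y - y0) ≤ |u0| + |u2| := by
    intro y hy0 hy2
    have h1 : 0 ≤ (y - y0) / (y2 - y0) := div_nonneg (by linarith) h20.le
    have h2 : (y - y0) / (y2 - y0) ≤ 1 := by rw [div_le_one h20]; linarith
    have h3 : u0 + lam * (y - y0) = (1 - (y - y0) / (y2 - y0)) * u0 + (y - y0) / (y2 - y0) * u2 := by
      rw [hlam]; field_simp; ring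
    rw [h3]
    have h4 : (1 - (y - y0) / (y2 - y0)) * u0 ≤ |u0| := by
      calc (1 - (y - y0) / (y2 - y0)) * u0 ≤ (1 - (y - y0) / (y2 - y0)) * |u0| :=
            mul_le_mul_of_nonneg_left (le_abs_self _) (by linarith)
        _ ≤ 1 * |u0| := mul_le_mul_of_nonneg_right (by linarith) (abs_nonneg _)
        _ = |u0| := one_mul _
    have h5 : (y - y0) / (y2 - y0) * u2 ≤ |u2| := by
      calc (y - y0) / (y2 - y0) * u2 ≤ (y - y0) / (y2 - y0) * |u2| :=
            mul_le_mul_of_nonneg_left (le_abs_self _) h1
        _ ≤ 1 * |u2| := mul_le_mul_of_nonneg_right h2 (abs_nonneg _)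
        _ = |u2| := one_mul _
    linarith
  have hsq : ∀ y : ℝ, y0 ≤ y → y ≤ y2 → y ^ 2 ≤ m := by
    intro y hy0 hy2
    rcases le_total 0 y with h | h
    · exact le_trans (by nlinarith) (le_max_right _ _)
    · exact le_trans (by nlinarith) (le_max_left _ _)
  set φ : ℂ → ℂ := fun z => (L : ℂ) * (u0 + lam * (-I * z - y0) - ε * z ^ 2 - ε * m) with hφ
  have hφre : ∀ z : ℂ, (φ z).re = L * (u0 + lam * (z.im - y0) - ε * (z.re ^ 2 - z.im ^ 2) - ε * m) := by
    intro z
    simp only [hφ, pow_two, Complex.mul_re, Complex.mul_im, Complex.sub_re, Complex.sub_im,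
      Complex.add_re, Complex.add_im, Complex.neg_re, Complex.neg_im, Complex.I_re, Complex.I_im,
      Complex.ofReal_re, Complex.ofReal_im]
    ring
  set U : Set ℂ := Set.Ioo (-R) R ×ℂ Set.Ioo y0 y2 with hU
  have hcl : closure U = Set.Icc (-R) R ×ℂ Set.Icc y0 y2 := by
    rw [hU, Complex.closure_reProdIm, closure_Ioo (by linarith), closure_Ioo (by linarith)]
  have hne : ∀ z ∈ closure U, f z ≠ 0 := by
    intro z hz h0
    rw [hcl, Complex.mem_reProdIm] at hz
    have := hB z (abs_le.2 ⟨hz.1.1, hz.1.2⟩) hz.2.1 hz.2.2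
    rw [h0, norm_zero] at this
    exact absurd this (not_le.2 (Real.exp_pos _))
  have hdiff : DiffContOnCl ℂ (fun z => cexp (φ z) / f z) U := by
    apply DifferentiableOn.diffContOnCl
    intro z hz
    apply DifferentiableAt.differentiableWithinAt
    apply DifferentiableAt.div _ (hf z) (hne z hz)
    apply DifferentiableAt.cexp
    simp only [hφ]
    fun_prop
  have hbdd : Bornology.IsBounded U := by
    rw [hU]
    exact (Metric.isBounded_Ioo _ _).reProdIm (Metric.isBounded_Ioo _ _)
  have hnorm : ∀ z : ℂ, ‖cexp (φ z) / f z‖ = Real.exp ((φ z).re) / ‖f z‖ := by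
    intro z; rw [norm_div, Complex.norm_exp]
  have key : ∀ z ∈ closure U, ∀ a : ℝ, (φ z).re ≤ L * a → Real.exp (L * a) ≤ ‖f z‖ →
      ‖cexp (φ z) / f z‖ ≤ 1 := by
    intro z hz a h1 h2
    rw [hnorm, div_le_one (norm_pos_iff.2 (hne z hz))]
    exact le_trans (Real.exp_le_exp.2 h1) h2
  have hmax : ‖cexp (φ (I * y1)) / f (I * y1)‖ ≤ 1 := by
    apply Complex.norm_le_of_forall_mem_frontier_norm_le hbdd hdiff
    · intro z hz
      have hzc : z ∈ closure U := frontier_subset_closure hz
      have hzc' := hzc
      rw [hcl, Complex.mem_reProdIm] at hzc'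
      obtain ⟨⟨hr1, hr2⟩, hi1, hi2⟩ := hzc'
      have habs : |z.re| ≤ R := abs_le.2 ⟨hr1, hr2⟩
      rw [hU, Complex.frontier_reProdIm, closure_Ioo (by linarith), closure_Ioo (by linarith),
        frontier_Ioo (by linarith), frontier_Ioo (by linarith)] at hz
      have hzsq := hsq z.im hi1 hi2
      rcases hz with hz | hz
      · rw [Complex.mem_reProdIm] at hz
        rcases hz.2 with h | h
        · -- bottom
          refine key z hzc u0 ?_ (hlow z habs h)
          rw [hφre]
          apply mul_le_mul_of_nonneg_left _ hL.le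
          rw [h] at hzsq ⊢
          nlinarith [sq_nonneg z.re, mul_nonneg hεp.le (sq_nonneg z.re), mul_le_mul_of_nonneg_left hzsq hεp.le]
        · have h : z.im = y2 := h
          refine key z hzc u2 ?_ (hup z habs h)
          rw [hφre]
          apply mul_le_mul_of_nonneg_left _ hL.le
          rw [h] at hzsq ⊢
          nlinarith [sq_nonneg z.re, mul_nonneg hεp.le (sq_nonneg z.re), mul_le_mul_of_nonneg_left hzsq hεp.le]
      · rw [Complex.mem_reProdIm] at hz
        have hre : z.re ^ 2 = R ^ 2 := by
          rcases hz.1 with h | h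
          · rw [h]; ring
          · have h : z.re = R := h
            rw [h]
        refine key z hzc (-B) ?_ ?_
        · rw [hφre]
          apply mul_le_mul_of_nonneg_left _ hL.le
          have h1 := hconv z.im hi1 hi2
          have h2 := neg_abs_le B
          have h3 := le_abs_self B
          rw [hre]
          nlinarith [mul_le_mul_of_nonneg_left hzsq hεp.le]
        · have := hB z habs hi1 hi2
          rwa [mul_neg]
    · rw [hcl, Complex.mem_reProdIm]
      simp only [Complex.mul_re, Complex.mul_im, Complex.I_re, Complex.I_im, Complex.ofReal_re,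
        Complex.ofReal_im]
      constructor
      · constructor <;> simp <;> linarith
      · constructor <;> simp <;> linarith
  have hy1c : I * (y1 : ℂ) ∈ closure U := by
    rw [hcl, Complex.mem_reProdIm]
    simp only [Complex.mul_re, Complex.mul_im, Complex.I_re, Complex.I_im, Complex.ofReal_re,
      Complex.ofReal_im]
    constructor
    · constructor <;> simp <;> linarith
    · constructor <;> simp <;> linarith
  rw [hnorm, div_le_one (norm_pos_iff.2 (hne _ hy1c)), hφre] at hmax
  refine le_trans (Real.exp_le_exp.2 ?_) hmax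
  apply mul_le_mul_of_nonneg_left _ hL.le
  have him : (I * (y1 : ℂ)).im = y1 := by simp
  have hre : (I * (y1 : ℂ)).re = 0 := by simp
  rw [him, hre]
  have h1 : u0 + lam * (y1 - y0) = (y2 - y1) / (y2 - y0) * u0 + (y1 - y0) / (y2 - y0) * u2 := by
    rw [hlam]; field_simp; ring
  nlinarith [mul_nonneg hεp.le (sq_nonneg y1)]

end Pool.Agent.Helper75.LQ
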